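import Mathlib
import Pool.Agent.H211F52.Slice

/-!
# The restriction of Q1 to pairs in which one graph has bounded size is decidable

For every `m`, the predicate of the problem, restricted to the pairs `(G1, G2)` in which `G1` or `G2` has at most
`m` vertices, is computable. The case of small `G1` rests on a kernel theorem: a valid `G2` of any size contains
a subgraph of size bounded in terms of `G1` alone that is already valid.
-/

set_option autoImplicit false
open Classical

namespace Pool.Agent.Results.MP_f52059_co.BoundedSide

/-- For every `m`, it is decidable, for pairs of graphs one of which has at most `m` vertices, whether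
`t(G1, H) ≥ t(G2, H)` for all graphs `H`. -/
theorem result (m : ℕ) :
  ComputablePred (fun p : (ℕ × List (ℕ × ℕ)) × (ℕ × List (ℕ × ℕ)) =>
    (p.1.1 ≤ m ∨ p.2.1 ≤ m) ∧
    ∀ (k : ℕ) (H : SimpleGraph (Fin (k + 1))),
      ((Finset.univ.filter (fun f : Fin p.2.1 → Fin (k + 1) =>
          ∀ i j : Fin p.2.1,
            (SimpleGraph.fromRel (fun a b : Fin p.2.1 => (a.val, b.val) ∈ p.2.2)).Adj i j →
              H.Adj (f i) (f j))).card : ℝ) / (((k + 1 : ℕ) : ℝ) ^ p.2.1)
      ≤
      ((Finset.univ.filter (fun f : Fin p.1.1 → Fin (k + 1) =>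
          ∀ i j : Fin p.1.1,
            (SimpleGraph.fromRel (fun a b : Fin p.1.1 => (a.val, b.val) ∈ p.1.2)).Adj i j →
              H.Adj (f i) (f j))).card : ℝ) / (((k + 1 : ℕ) : ℝ) ^ p.1.1)) :=
  PrimrecPred.computablePred (Pool.Agent.H211F52.slice m)

end Pool.Agent.Results.MP_f52059_co.BoundedSide
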