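import Mathlib
import Pool.Agent.H211F52.Comp

/-!
# A bounded kernel for pure binomial inequalities between homomorphism densities

For every graph `G1` on `m` vertices and every graph `G2` of any size: if `t(G1, H) ≥ t(G2, H)` for all `H`, then
`G2` has an induced subgraph on at most `B = B(m)` vertices with the same property.
-/

set_option autoImplicit false
open Classical

namespace Pool.Agent.Results.MP_f52059_co.KernelBound

/-- The homomorphism density `t(G, H)`: the number of homomorphisms from `G` to `H` divided by the number of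
all maps from `V(G)` to `V(H)`. -/
noncomputable def dens {V W : Type} (G : SimpleGraph V) (H : SimpleGraph W) : ℝ :=
  (Nat.card (G →g H) : ℝ) / (Nat.card W : ℝ) ^ Nat.card V

/-- `G1 - G2 ≥ 0` is a valid homomorphism density inequality. -/
def IsValid {V X : Type} (G1 : SimpleGraph V) (G2 : SimpleGraph X) : Prop :=
  ∀ (k : ℕ) (H : SimpleGraph (Fin (k + 1))), dens G2 H ≤ dens G1 H

open Pool.Agent.H211F52 in
lemma dens_eq {V W : Type} [Fintype V] [Fintype W] (G : SimpleGraph V) (H : SimpleGraph W) :
    dens G H = t G H := by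
  unfold dens t
  rw [av_eq, Fintype.card_fun, Nat.card_eq_fintype_card (α := V), Nat.card_eq_fintype_card (α := W)]
  push_cast
  congr 1
  have e : (G →g H) ≃ {f : V → W // IsHom G H f} :=
    { toFun := fun f => ⟨f, fun i j h => f.map_adj h⟩
      invFun := fun f => ⟨f.1, fun {a b} h => f.2 a b h⟩
      left_inv := fun f => rfl
      right_inv := fun f => rfl }
  rw [Nat.card_congr e, Nat.card_eq_fintype_card, Fintype.card_subtype, Finset.card_filter]
  push_cast
  refine Finset.sum_congr rfl fun f _ => ?_
  unfold ind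
  split_ifs <;> rfl

open Pool.Agent.H211F52 in
lemma isValid_iff {V X : Type} [Fintype V] [Fintype X] (G1 : SimpleGraph V) (G2 : SimpleGraph X) :
    IsValid G1 G2 ↔ Valid G1 G2 := by
  unfold IsValid Valid
  simp only [dens_eq]

open Pool.Agent.H211F52 in
/-- For every `m` there is `B` such that for every graph `G1` on `m` vertices and every graph `G2`, the
inequality `G1 - G2 ≥ 0` is valid if and only if `G1 - G ≥ 0` is valid for some induced subgraph `G` of `G2` on
at most `B` vertices. -/
theorem result (m : ℕ) : ∃ B : ℕ, ∀ (G1 : SimpleGraph (Fin m)) (n : ℕ) (G2 : SimpleGraph (Fin n)),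
    IsValid G1 G2 ↔ ∃ Y : Set (Fin n), Nat.card Y ≤ B ∧ IsValid G1 (G2.induce Y) := by
  obtain ⟨B, hB⟩ := kernel_theorem (Fin m)
  refine ⟨B, fun G1 n G2 => ⟨fun h => ?_, ?_⟩⟩
  · obtain ⟨Y, hY1, hY2⟩ := hB G1 (Fin n) G2 ((isValid_iff _ _).mp h)
    refine ⟨(Y : Set (Fin n)), ?_, ?_⟩
    · rw [Nat.card_eq_fintype_card]
      simpa using hY1
    · rw [isValid_iff]
      exact hY2
  · rintro ⟨Y, _, hY⟩
    rw [isValid_iff] at hY ⊢
    intro k W
    exact (t_le_of_embed W (Subtype.val : Y → Fin n) Subtype.val_injective (fun a b h => h)).trans (hY k W)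

end Pool.Agent.Results.MP_f52059_co.KernelBound
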